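import Pool.Agent.Q158.OPN.Dense
set_option autoImplicit false

/-!
# The divisors of an odd perfect number are dense

Let `N` be an odd perfect number with `k` distinct prime factors.  Any two consecutive divisors
`d < d'` of `N` satisfy `d' ≤ 2 k d`; so every interval `[y, 2 k y]`, `1 ≤ y ≤ N / (2 k)`, contains
a divisor of `N`, at least `log x / log (2 k)` divisors are at most `x`, and `N = d d'` with
`d ≤ d' ≤ 4 k ^ 2 d`.  Moreover every integer from `0` to `2 k N` is a sum of divisors of `N` each
of which is used at most `k` times.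

More generally, for all `n ≥ 1`, with `g = gcd (n, σ(n))` and `k = ω(n)`: consecutive divisors
`d < d'` of `n` satisfy `d' ≤ k (σ(n) / g) d`, and every integer up to `k (n / g) σ(n)` is a sum of
divisors of `n` each of which is used at most `k (n / g)` times.  For multiply perfect numbers
`σ(n) = l n` the two constants are `k l` and `k`.

Proof.  Let `b σ(n) = a n` with `a / b` in lowest terms, let `p` be a prime factor of `n`, and
write `n = A B`, where `A` is composed of the primes smaller than `p`.  Then `a A / (b σ(A))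
= σ(B) / B > 1`, so `a A ≥ b σ(A) + 1`; on the other hand `σ(B) / B` is less than the product of
`q / (q - 1)` over at most `k` different `q ≥ p`, hence at most `(p - 1 + k) / (p - 1)`.  This gives
`p - 1 ≤ k b σ(A)`.  The theorem follows by induction over the primes, in the first part as in
Tenenbaum's characterisation of the integers with dense divisors, in the second as in the theorem
of Stewart and Sierpiński on practical numbers.
-/

namespace Pool.Agent.Results.MP_f02ea4_nt.DenseDivisors
open Finset Pool.Agent.Q158.OPN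

/-- `d < d'` are consecutive divisors of `n`. -/
def Consecutive (n d d' : ℕ) : Prop :=
  d ∣ n ∧ d' ∣ n ∧ d < d' ∧ ∀ e, e ∣ n → ¬ (d < e ∧ e < d')

/-- `m` is a sum of divisors of `n` each of which is used at most `c` times. -/
def SumOfDivisors (c n m : ℕ) : Prop :=
  ∃ f : ℕ → ℕ, (∀ d, f d ≤ c) ∧ ∑ d ∈ n.divisors, f d * d = m

theorem consec (t : ℝ) (n : ℕ) (hn : n ≠ 0) (h : DenseDiv t n) (d d' : ℕ)
    (hc : Consecutive n d d') : (d' : ℝ) ≤ t * d := by
  obtain ⟨h1, h2, h3, h4⟩ := hc
  have hd0 : 0 < d := Nat.pos_of_dvd_of_pos h1 (Nat.pos_of_ne_zero hn)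
  apply le_of_forall_lt_imp_le_of_dense
  intro y hy
  have hd1 : (1 : ℝ) ≤ d := by exact_mod_cast hd0
  have hdn : (d' : ℝ) ≤ n := by
    exact_mod_cast Nat.le_of_dvd (Nat.pos_of_ne_zero hn) h2
  -- replace `y` by `max y d`
  have hdd : (d : ℝ) < d' := by exact_mod_cast h3
  have hm : max y d < d' := max_lt hy hdd
  obtain ⟨e, he, he1, he2⟩ := h (max y d) (le_max_of_le_right hd1) (hm.le.trans hdn)
  have he3 : e < d' := by exact_mod_cast lt_of_le_of_lt he1 hm
  have he4 : e ≤ d := by
    by_contra hcon
    exact h4 e he ⟨by omega, he3⟩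
  have he0 : 0 < e := Nat.pos_of_dvd_of_pos he (Nat.pos_of_ne_zero hn)
  have ht : 0 ≤ t := by
    by_contra hneg
    push Not at hneg
    have : t * (e : ℝ) < 0 := mul_neg_of_neg_of_pos hneg (by exact_mod_cast he0)
    have h5 : (0 : ℝ) < max y d := lt_of_lt_of_le (by linarith) (le_max_right y (d : ℝ))
    linarith
  calc y ≤ max y d := le_max_left _ _
    _ ≤ t * e := he2
    _ ≤ t * d := mul_le_mul_of_nonneg_left (by exact_mod_cast he4) ht

/-- from a dense set of divisors to the number of divisors up to `x` -/
theorem count (t : ℝ) (ht : 1 < t) (n : ℕ) (h : DenseDiv t n) :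
    ∀ x : ℝ, 1 ≤ x → x ≤ n →
      Real.log x ≤ ((n.divisors.filter (fun d : ℕ => (d : ℝ) ≤ x)).card : ℝ) * Real.log t := by
  classical
  have hlt : 0 < Real.log t := Real.log_pos ht
  -- induction on the number of divisors up to `x`
  have key : ∀ (c : ℕ) (x : ℝ), 1 ≤ x → x ≤ n →
      (n.divisors.filter (fun d : ℕ => (d : ℝ) ≤ x)).card ≤ c → Real.log x ≤ c * Real.log t := by
    intro c
    induction c with
    | zero =>
      intro x hx1 hx2 hc
      exfalso
      have hn : n ≠ 0 := by
        rintro rfl
        simp only [Nat.cast_zero] at hx2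
        linarith
      have : (1 : ℕ) ∈ n.divisors.filter (fun d : ℕ => (d : ℝ) ≤ x) := by
        simp [hn, hx1]
      have := Finset.card_pos.2 ⟨1, this⟩
      omega
    | succ c ih =>
      intro x hx1 hx2 hc
      have hn : n ≠ 0 := by
        rintro rfl
        simp only [Nat.cast_zero] at hx2
        linarith
      obtain ⟨d, hd, hd1, hd2⟩ := h x hx1 hx2
      have hd0 : 0 < d := Nat.pos_of_dvd_of_pos hd (Nat.pos_of_ne_zero hn)
      have hd0' : (0 : ℝ) < d := by exact_mod_cast hd0
      have hlogx : Real.log x ≤ Real.log t + Real.log d := by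
        rw [← Real.log_mul (by linarith) hd0'.ne']
        exact Real.log_le_log (by linarith) hd2
      by_cases h1 : d = 1
      · subst h1
        simp only [Nat.cast_one, Real.log_one, add_zero] at hlogx
        push_cast
        have hc0 : (0 : ℝ) ≤ c := Nat.cast_nonneg c
        nlinarith
      · -- numbers just below `d`
        have hd2' : 2 ≤ d := by omega
        have hle : Real.log d ≤ c * Real.log t := by
          apply le_of_forall_lt_imp_le_of_dense
          intro z hz
          -- a real `y < d` with `log y > z`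
          set y := max 1 (max (Real.exp z) ((d : ℝ) - 1)) with hy
          have hyd : y < d := by
            have h2d : (2 : ℝ) ≤ d := by exact_mod_cast hd2'
            refine max_lt (by linarith) (max_lt ?_ (by linarith))
            rw [← Real.exp_log hd0']
            exact Real.exp_lt_exp.2 hz
          have hy1 : 1 ≤ y := le_max_left _ _
          have hdn : (d : ℝ) ≤ n := by
            exact_mod_cast Nat.le_of_dvd (Nat.pos_of_ne_zero hn) hd
          have hcard : (n.divisors.filter (fun e : ℕ => (e : ℝ) ≤ y)).card ≤ c := by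
            have hsub : insert d (n.divisors.filter (fun e : ℕ => (e : ℝ) ≤ y)) ⊆
                n.divisors.filter (fun e : ℕ => (e : ℝ) ≤ x) := by
              intro e he
              rw [Finset.mem_insert] at he
              rcases he with rfl | he
              · rw [Finset.mem_filter, Nat.mem_divisors]
                exact ⟨⟨hd, hn⟩, hd1⟩
              · rw [Finset.mem_filter] at he ⊢
                exact ⟨he.1, by linarith [he.2]⟩
            have hnot : d ∉ n.divisors.filter (fun e : ℕ => (e : ℝ) ≤ y) := by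
              rw [Finset.mem_filter]
              rintro ⟨_, h3⟩
              linarith
            have := Finset.card_le_card hsub
            rw [Finset.card_insert_of_notMem hnot] at this
            omega
          have h4 := ih y hy1 (by linarith) hcard
          have h5 : z ≤ Real.log y := by
            rw [Real.le_log_iff_exp_le (by linarith)]
            exact (le_max_left _ _).trans (le_max_right _ _)
          linarith
        push_cast
        linarith
  intro x hx1 hx2
  exact key _ x hx1 hx2 le_rfl

/-- **Main theorem.**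
1. General form: consecutive divisors.
2. General form: sums of divisors.
3. Odd perfect numbers `N` with `k` distinct prime factors: consecutive divisors `d < d'` satisfy
`d' ≤ 2 k d`; every real `y` in `[1, N]` is in `[d, 2 k d]` for a divisor `d`; `N = d d'` with
`d ≤ d' ≤ 4 k ^ 2 d`; at least `log x / log (2 k)` divisors are at most `x`, `1 ≤ x ≤ N`; every
integer up to `2 k N` is a sum of divisors, each used at most `k` times. -/
theorem result :
    (∀ n : ℕ, n ≠ 0 → ∀ d d' : ℕ, Consecutive n d d' →
      d' ≤ n.primeFactors.card * ((∑ e ∈ n.divisors, e) / Nat.gcd n (∑ e ∈ n.divisors, e)) * d) ∧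
    (∀ n : ℕ, n ≠ 0 → ∀ m : ℕ,
      m ≤ n.primeFactors.card * (n / Nat.gcd n (∑ e ∈ n.divisors, e)) * ∑ e ∈ n.divisors, e →
      SumOfDivisors (n.primeFactors.card * (n / Nat.gcd n (∑ e ∈ n.divisors, e))) n m) ∧
    (∀ N k : ℕ, Odd N → N.Perfect → N.primeFactors.card = k →
      (∀ d d' : ℕ, Consecutive N d d' → d' ≤ 2 * k * d) ∧
      (∀ y : ℝ, 1 ≤ y → y ≤ N → ∃ d : ℕ, d ∣ N ∧ (d : ℝ) ≤ y ∧ y ≤ 2 * k * d) ∧
      (∃ d d' : ℕ, d * d' = N ∧ d ≤ d' ∧ d' ≤ 4 * k ^ 2 * d) ∧
      (∀ x : ℝ, 1 ≤ x → x ≤ N →
        Real.log x ≤ ((N.divisors.filter (fun d : ℕ => (d : ℝ) ≤ x)).card : ℝ) *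
          Real.log (2 * k)) ∧
      (∀ m : ℕ, m ≤ 2 * k * N → SumOfDivisors k N m)) := by
  have hgen : ∀ n : ℕ, n ≠ 0 →
      (n / Nat.gcd n (∑ e ∈ n.divisors, e)) ≠ 0 ∧
      (n / Nat.gcd n (∑ e ∈ n.divisors, e)) * sigma n =
        ((∑ e ∈ n.divisors, e) / Nat.gcd n (∑ e ∈ n.divisors, e)) * n := by
    intro n hn
    change (n / Nat.gcd n (sigma n)) ≠ 0 ∧ (n / Nat.gcd n (sigma n)) * sigma n =
        (sigma n / Nat.gcd n (sigma n)) * n
    have hg : 0 < Nat.gcd n (sigma n) := Nat.gcd_pos_of_pos_left _ (Nat.pos_of_ne_zero hn)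
    obtain ⟨u, hu⟩ := Nat.gcd_dvd_left n (sigma n)
    obtain ⟨v, hv⟩ := Nat.gcd_dvd_right n (sigma n)
    set g := Nat.gcd n (sigma n) with hgdef
    have h1 : n / g = u := by rw [hu]; exact Nat.mul_div_cancel_left u hg
    have h2 : sigma n / g = v := by rw [hv]; exact Nat.mul_div_cancel_left v hg
    rw [h1, h2]
    constructor
    · rintro rfl
      rw [mul_zero] at hu
      exact hn hu
    · calc u * sigma n = u * (g * v) := by rw [← hv]
        _ = v * (g * u) := by ring
        _ = v * n := by rw [← hu]
  refine ⟨?_, ?_, ?_⟩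
  · intro n hn d d' hc
    obtain ⟨h1, h2⟩ := hgen n hn
    rcases denseDiv n _ _ hn h1 h2 with h3 | h3
    · have := consec _ n hn h3 d d' hc
      exact_mod_cast this
    · subst h3
      obtain ⟨h4, h5, h6, _⟩ := hc
      rw [Nat.dvd_one] at h4 h5
      omega
  · intro n hn m hm
    obtain ⟨h1, h2⟩ := hgen n hn
    exact sumDiv n _ _ hn h1 h2 m hm
  · intro N k hodd hN hk
    have hpos : 0 < N := hN.2
    have hs : sigma N = 2 * N := (Nat.perfect_iff_sum_divisors_eq_two_mul hpos).1 hN
    have h1 : 1 * sigma N = 2 * N := by rw [one_mul, hs]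
    have hN1 : N ≠ 1 := by
      rintro rfl
      simp [sigma] at hs
    have hd : DenseDiv (2 * k : ℝ) N := by
      rcases denseDiv N 2 1 hpos.ne' one_ne_zero h1 with h3 | h3
      · rw [hk] at h3
        push_cast at h3
        rwa [mul_comm] at h3
      · exact absurd h3 hN1
    have hk1 : 1 ≤ k := by
      rw [← hk, Nat.one_le_iff_ne_zero, ← Nat.pos_iff_ne_zero, Finset.card_pos,
        Nat.nonempty_primeFactors]
      omega
    have hkr : (1 : ℝ) ≤ k := by exact_mod_cast hk1
    refine ⟨?_, hd, ?_, ?_, ?_⟩
    · intro d d' hc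
      have := consec _ N hpos.ne' hd d d' hc
      exact_mod_cast this
    · have hN1r : (1 : ℝ) ≤ N := by exact_mod_cast hpos
      obtain ⟨d, hdN, hd1, hd2⟩ := hd (Real.sqrt N) (by rwa [Real.one_le_sqrt]) (by
        rw [Real.sqrt_le_left (by linarith)]
        nlinarith)
      obtain ⟨e, he⟩ := hdN
      have hd0 : 0 < d := Nat.pos_of_dvd_of_pos ⟨e, he⟩ hpos
      have hsq : Real.sqrt N * Real.sqrt N = N := Real.mul_self_sqrt (by linarith)
      have hdr : (0 : ℝ) < d := by exact_mod_cast hd0
      have her : (N : ℝ) = d * e := by exact_mod_cast he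
      refine ⟨d, e, he.symm, ?_, ?_⟩
      · have h3 : (d : ℝ) * d ≤ d * e := by
          rw [← her, ← hsq]
          exact mul_le_mul hd1 hd1 hdr.le (Real.sqrt_nonneg _)
        exact_mod_cast le_of_mul_le_mul_left h3 hdr
      · have h3 : (d : ℝ) * e ≤ d * (4 * k ^ 2 * d) := by
          rw [← her, ← hsq]
          calc Real.sqrt N * Real.sqrt N ≤ (2 * k * d) * (2 * k * d) :=
                mul_le_mul hd2 hd2 (Real.sqrt_nonneg _) (by positivity)
            _ = d * (4 * k ^ 2 * d) := by ring
        exact_mod_cast le_of_mul_le_mul_left h3 hdr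
    · exact count (2 * k) (by linarith) N hd
    · intro m hm
      have h3 := sumDiv N 2 1 hpos.ne' one_ne_zero h1 m (by
        rw [hk, hs]
        calc m ≤ 2 * k * N := hm
          _ = k * 1 * (2 * N) := by ring)
      rw [hk, mul_one] at h3
      exact h3

end Pool.Agent.Results.MP_f02ea4_nt.DenseDivisors
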