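import Pool.Agent.Q158.OPN.Sigma
import Pool.Agent.Cov.PNT
set_option autoImplicit false

/-!
# Odd perfect numbers with given prime factors

How many odd perfect numbers can have a given set `P` of prime factors, `|P| = k`?  (The known
bounds, Pollack 2011 and others, count all odd perfect numbers with `k` prime factors and are of
the form `2 ^ (c k ^ 2)`.)  We show that there are at most `k * k! * ∏_{p ∈ P} (1 + ⌊log_p k⌋ / 2)`;
more generally, for every real `α` at most `k! * ∏_{p ∈ P} (1 + ⌊log_p k⌋) ≤ k! * 2 ^ k` numbers `n`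
with `σ(n) = α n` have the set `P` of prime factors.  Hence the number of the `n` with
`σ(n) = α n` whose part composed of primes greater than `y` is a given number `B` (for `B = 1`:
of the `n` with `σ(n) = α n` without prime factors greater than `y`) is at most
`2 ^ (π(y) + 1) * π(y)! = e ^ ((1 + o(1)) y)`, uniformly in `α` and `B`.

Proof.  Let `n p` be the exponent of `p`, increased by one.  Then `∏ (1 - p ^ (- n p)) = c` is
known.  The largest one of the `m` numbers `p ^ (- n p)` lies between `(1 - c) / m` and `1 - c`, so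
that once the prime `p` of this term is given there are at most `1 + ⌊log_p m⌋` possibilities for
`n p`, and we continue with the other primes.
-/

namespace Pool.Agent.Results.MP_f02ea4_nt.GivenPrimes
open Finset Pool.Agent.Q158.OPN Filter Topology

/-- The numbers `n` with `σ(n) = α n` and the set `P` of prime factors. -/
def WithPrimes (α : ℝ) (P : Finset ℕ) : Set ℕ :=
  {n | n ≠ 0 ∧ ((∑ d ∈ n.divisors, d : ℕ) : ℝ) = α * n ∧ n.primeFactors = P}

/-- The odd perfect numbers with the set `P` of prime factors. -/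
def OddPerfectWithPrimes (P : Finset ℕ) : Set ℕ :=
  {N | Odd N ∧ N.Perfect ∧ N.primeFactors = P}

/-- The part of `n` composed of primes greater than `y`. -/
def roughPart (y n : ℕ) : ℕ := ∏ p ∈ n.primeFactors with y < p, p ^ n.factorization p

/-- The numbers `n` with `σ(n) = α n` whose part composed of primes greater than `y` is `B`. -/
def WithRoughPart (α : ℝ) (y B : ℕ) : Set ℕ :=
  {n | n ≠ 0 ∧ ((∑ d ∈ n.divisors, d : ℕ) : ℝ) = α * n ∧ roughPart y n = B}

theorem geom_parity (p e : ℕ) (hp : Odd p) :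
    (∑ k ∈ range (e + 1), p ^ k) % 2 = (e + 1) % 2 := by
  induction e with
  | zero => simp
  | succ e ih =>
    rw [Finset.sum_range_succ]
    have h : p ^ (e + 1) % 2 = 1 := Nat.odd_iff.1 hp.pow
    omega

/-- Euler: exactly one exponent of an odd perfect number is odd -/
theorem euler (N : ℕ) (hodd : Odd N) (hN : N.Perfect) :
    ∃ q ∈ N.primeFactors, ∀ p ∈ N.primeFactors,
      (N.factorization p + 1) % 2 = (if p = q then 0 else 1) % 2 := by
  have hpos : 0 < N := hN.2
  have hs : ∑ d ∈ N.divisors, d = 2 * N := (Nat.perfect_iff_sum_divisors_eq_two_mul hpos).1 hN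
  rw [Nat.sum_divisors hpos.ne'] at hs
  have hpodd : ∀ p ∈ N.primeFactors, Odd p := by
    intro p hp
    exact Odd.of_dvd_nat hodd (Nat.dvd_of_mem_primeFactors hp)
  have h1 : ∃ q ∈ N.primeFactors, 2 ∣ ∑ k ∈ range (N.factorization q + 1), q ^ k := by
    rw [← (Nat.prime_two.prime).dvd_finsetProd_iff, hs]
    exact dvd_mul_right _ _
  obtain ⟨q, hq, hq2⟩ := h1
  refine ⟨q, hq, ?_⟩
  intro p hp
  by_cases hpq : p = q
  · subst hpq
    have := geom_parity p (N.factorization p) (hpodd p hp)
    simp only [if_true]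
    omega
  · simp only [hpq, if_false]
    by_contra hne
    have h3 : 2 ∣ ∑ k ∈ range (N.factorization p + 1), p ^ k := by
      have := geom_parity p (N.factorization p) (hpodd p hp)
      omega
    rw [← Finset.mul_prod_erase _ _ hq, ← Finset.mul_prod_erase _ _
      (Finset.mem_erase.2 ⟨hpq, hp⟩)] at hs
    have h4 : 2 * 2 ∣ 2 * N := by
      rw [← hs, ← mul_assoc]
      exact Dvd.dvd.mul_right (Nat.mul_dvd_mul hq2 h3) _
    have h5 : 2 ∣ N := Nat.dvd_of_mul_dvd_mul_left (by norm_num) h4
    obtain ⟨t, ht⟩ := hodd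
    omega

theorem oddPerfect_card (P : Finset ℕ) :
    (OddPerfectWithPrimes P).Finite ∧
    (OddPerfectWithPrimes P).ncard ≤
      P.card * (P.card.factorial * ∏ p ∈ P, (1 + Nat.log p P.card / 2)) := by
  classical
  by_cases hP : ∀ p ∈ P, 2 ≤ p
  · have hcov : OddPerfectWithPrimes P ⊆
        ⋃ q ∈ P, FibreM 2 (fun p => if p = q then 0 else 1) 2 P := by
      rintro N ⟨hodd, hN, hPN⟩
      obtain ⟨q, hq, h⟩ := euler N hodd hN
      rw [hPN] at hq h
      simp only [Set.mem_iUnion]
      refine ⟨q, hq, hN.2.ne', hPN, ?_, h⟩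
      have hs := (Nat.perfect_iff_sum_divisors_eq_two_mul hN.2).1 hN
      unfold sigma
      rw [hs]
      push_cast
      ring
    have hfin : (⋃ q ∈ P, FibreM 2 (fun p => if p = q then 0 else 1) 2 P).Finite := by
      apply Set.Finite.biUnion (Finset.finite_toSet _)
      intro q _
      exact (fibreM_card 2 (by norm_num) _ _ P hP).1
    refine ⟨hfin.subset hcov, ?_⟩
    calc (OddPerfectWithPrimes P).ncard
        ≤ (⋃ q ∈ P, FibreM 2 (fun p => if p = q then 0 else 1) 2 P).ncard :=
          Set.ncard_le_ncard hcov hfin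
      _ ≤ ∑ q ∈ P, (FibreM 2 (fun p => if p = q then 0 else 1) 2 P).ncard :=
          Finset.set_ncard_biUnion_le _ _
      _ ≤ ∑ q ∈ P, P.card.factorial * ∏ p ∈ P, (1 + Nat.log p P.card / 2) :=
          Finset.sum_le_sum (fun q _ => (fibreM_card 2 (by norm_num) _ _ P hP).2)
      _ = _ := by rw [Finset.sum_const, smul_eq_mul]
  · have hemp : OddPerfectWithPrimes P = ∅ := by
      ext n
      simp only [Set.mem_empty_iff_false, iff_false]
      rintro ⟨_, _, h1⟩
      apply hP
      intro p hp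
      rw [← h1] at hp
      exact (Nat.prime_of_mem_primeFactors hp).two_le
    rw [hemp]
    simp

theorem asymp (ε : ℝ) (hε : 0 < ε) : ∃ y₀ : ℕ, ∀ y : ℕ, y₀ ≤ y →
    ((2 * (2 ^ Nat.primeCounting y * (Nat.primeCounting y).factorial) : ℕ) : ℝ) ≤
      Real.exp ((1 + ε) * y) := by
  have hpnt := Pool.Agent.Cov.PNT.pi_tendsto.comp tendsto_natCast_atTop_atTop
  have hlog : Tendsto (fun y : ℕ => Real.log (y : ℝ)) atTop atTop :=
    Real.tendsto_log_atTop.comp tendsto_natCast_atTop_atTop
  have h1 : ∀ᶠ y : ℕ in atTop, (Nat.primeCounting y : ℝ) * Real.log y / y < 1 + ε / 3 := by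
    have := hpnt.eventually (gt_mem_nhds (show (1 : ℝ) < 1 + ε / 3 by linarith))
    filter_upwards [this] with y hy
    simpa using hy
  have h2 : ∀ᶠ y : ℕ in atTop, 3 * (1 + ε / 3) / ε < Real.log (y : ℝ) :=
    hlog.eventually (eventually_gt_atTop _)
  have h3 : ∀ᶠ y : ℕ in atTop, 3 / ε < (y : ℝ) :=
    tendsto_natCast_atTop_atTop.eventually (eventually_gt_atTop _)
  obtain ⟨y₀, hy₀⟩ := eventually_atTop.1 ((h1.and h2).and (h3.and (eventually_ge_atTop 2)))
  refine ⟨y₀, fun y hy => ?_⟩
  obtain ⟨⟨h1, h2⟩, h3, h4⟩ := hy₀ y hy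
  set K := Nat.primeCounting y with hK
  have hy0 : (0 : ℝ) < y := by positivity
  have hl0 : 0 < Real.log (y : ℝ) := by
    apply Real.log_pos
    exact_mod_cast (by omega : 1 < y)
  have hKy : K ≤ y := by
    rw [hK, Nat.primeCounting, Nat.primeCounting', Nat.count_eq_card_filter_range]
    have hsub : (Finset.range (y + 1)).filter Nat.Prime ⊆ Finset.Icc 1 y := by
      intro p hp
      simp only [Finset.mem_filter, Finset.mem_range, Finset.mem_Icc] at hp ⊢
      have := hp.2.pos
      omega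
    simpa using Finset.card_le_card hsub
  have hfac : ((K.factorial : ℕ) : ℝ) ≤ (y : ℝ) ^ K := by
    have : K.factorial ≤ K ^ K := Nat.factorial_le_pow K
    calc ((K.factorial : ℕ) : ℝ) ≤ ((K ^ K : ℕ) : ℝ) := by exact_mod_cast this
      _ = (K : ℝ) ^ K := by push_cast; rfl
      _ ≤ (y : ℝ) ^ K := pow_le_pow_left₀ (by positivity) (by exact_mod_cast hKy) K
  have ha : (K : ℝ) * Real.log y ≤ (1 + ε / 3) * y := by
    rw [div_lt_iff₀ hy0] at h1
    exact h1.le
  have hb : (K : ℝ) ≤ ε / 3 * y := by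
    rw [div_lt_iff₀ hε] at h2
    have h5 : (K : ℝ) * (3 * (1 + ε / 3)) ≤ K * (Real.log y * ε) :=
      mul_le_mul_of_nonneg_left h2.le (by positivity)
    have h6 : (K : ℝ) * (Real.log y * ε) = (K * Real.log y) * ε := by ring
    rw [h6] at h5
    have h7 : (K * Real.log y) * ε ≤ ((1 + ε / 3) * y) * ε :=
      mul_le_mul_of_nonneg_right ha hε.le
    have h8 : (0 : ℝ) < 1 + ε / 3 := by positivity
    have h9 : (1 + ε / 3) * (3 * K) ≤ (1 + ε / 3) * (ε * y) := by linarith
    have := le_of_mul_le_mul_left h9 h8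
    linarith
  have hc : 1 ≤ ε / 3 * y := by
    rw [div_lt_iff₀ hε] at h3
    linarith
  have hlog2 : Real.log 2 ≤ 1 := by
    have := Real.log_two_lt_d9; linarith
  push_cast
  calc (2 : ℝ) * (2 ^ K * (K.factorial : ℝ)) ≤ 2 * (2 ^ K * (y : ℝ) ^ K) := by
        have : (0 : ℝ) < 2 ^ K := by positivity
        nlinarith [mul_le_mul_of_nonneg_left hfac this.le]
    _ = Real.exp (Real.log 2 + (K * Real.log 2 + K * Real.log y)) := by
        rw [Real.exp_add, Real.exp_add, Real.exp_log (by norm_num), Real.exp_nat_mul,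
          Real.exp_nat_mul, Real.exp_log (by norm_num), Real.exp_log hy0]
    _ ≤ Real.exp ((1 + ε) * y) := by
        apply Real.exp_le_exp.2
        have h10 : (K : ℝ) * Real.log 2 ≤ K := by
          have : (0 : ℝ) ≤ K := by positivity
          nlinarith
        linarith

/-- **Main theorem.**
1. A given set `P` of `k` primes is the set of the prime factors of at most
`k * k! * ∏_{p ∈ P} (1 + ⌊⌊log_p k⌋ / 2⌋)` odd perfect numbers.
2. For every real `α` there are at most `k! * ∏_{p ∈ P} (1 + ⌊log_p k⌋)` and at most `k! * 2 ^ k`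
numbers `n` with `σ(n) = α n` and the set `P` of prime factors.
3. For all `α`, `y` and `B` there are at most `2 * 2 ^ π(y) * π(y)!` numbers `n` with `σ(n) = α n`
whose part composed of primes greater than `y` is `B`.
4. This bound is at most `e ^ ((1 + ε) y)` for `y ≥ y₀(ε)`. -/
theorem result :
    (∀ P : Finset ℕ, (OddPerfectWithPrimes P).Finite ∧ (OddPerfectWithPrimes P).ncard ≤
      P.card * (P.card.factorial * ∏ p ∈ P, (1 + Nat.log p P.card / 2))) ∧
    (∀ (α : ℝ) (P : Finset ℕ), (WithPrimes α P).Finite ∧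
      (WithPrimes α P).ncard ≤ P.card.factorial * ∏ p ∈ P, (1 + Nat.log p P.card) ∧
      (WithPrimes α P).ncard ≤ P.card.factorial * 2 ^ P.card) ∧
    (∀ (α : ℝ) (y B : ℕ), (WithRoughPart α y B).Finite ∧
      (WithRoughPart α y B).ncard ≤
        2 * (2 ^ Nat.primeCounting y * (Nat.primeCounting y).factorial)) ∧
    (∀ ε : ℝ, 0 < ε → ∃ y₀ : ℕ, ∀ y : ℕ, y₀ ≤ y → ∀ (α : ℝ) (B : ℕ),
      ((WithRoughPart α y B).ncard : ℝ) ≤ Real.exp ((1 + ε) * y)) := by
  have h1 : ∀ (α : ℝ) (P : Finset ℕ), WithPrimes α P = Fibre α P := by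
    intro α P
    ext n
    simp only [WithPrimes, Fibre, sigma, Set.mem_ofPred_eq]
    tauto
  have h2 : ∀ (α : ℝ) (y B : ℕ), WithRoughPart α y B =
      {n : ℕ | n ≠ 0 ∧ rough y n = B ∧ (sigma n : ℝ) = α * n} := by
    intro α y B
    ext n
    simp only [WithRoughPart, roughPart, rough, sigma, Set.mem_ofPred_eq]
    tauto
  have h3 : ∀ (α : ℝ) (y B : ℕ), (WithRoughPart α y B).Finite ∧
      (WithRoughPart α y B).ncard ≤
        2 * (2 ^ Nat.primeCounting y * (Nat.primeCounting y).factorial) := by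
    intro α y B
    rw [h2]
    exact rough_card α y B
  refine ⟨oddPerfect_card, ?_, h3, ?_⟩
  · intro α P
    rw [h1]
    exact ⟨(fibre_card α P).1, (fibre_card α P).2, fibre_card' α P⟩
  · intro ε hε
    obtain ⟨y₀, hy₀⟩ := asymp ε hε
    refine ⟨y₀, fun y hy α B => ?_⟩
    refine le_trans ?_ (hy₀ y hy)
    exact_mod_cast (h3 α y B).2

end Pool.Agent.Results.MP_f02ea4_nt.GivenPrimes
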