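import Mathlib
import Pool.Agent.H325R2.Opn
import Pool.Agent.Q203.OLP.Core
import Pool.Agent.Results.MP_f02ea4_nt.IthLargestPrime
set_option autoImplicit false
namespace Pool.Agent.Results.MP_f02ea4_nt.LargestPrimeBoundedExponents
open Finset Pool.Agent.H325R2.Opn Pool.Agent.Q203.OLP
open Pool.Agent.Results.MP_f02ea4_nt.IthLargestPrime (euler)

theorem numeric {q p x g G N : ℕ} (hg : 1 ≤ g) (hgG : g ≤ G) (hx : 1 ≤ x)
    (h1 : q ^ 3 * x ≤ 6 * N) (h2 : 2 * q < 3 * p ^ (2 * g))
    (h3 : q < 8 * x ∨ p < 4 * (6 * g) ^ (2 * g) * x ^ (2 * g + 1)) :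
    2 * q ^ (6 * G * (2 * G + 1) + 1) ≤
      3 * 24 ^ (2 * G) * (36 * G) ^ (4 * G ^ 2) * N ^ (2 * G * (2 * G + 1)) := by
  set y := 4 * (6 * G) ^ (2 * G) * x ^ (2 * G + 1) with hy
  have h6G : 36 ≤ (6 * G) ^ (2 * G) := by
    calc 36 = 6 ^ 2 := by norm_num
      _ ≤ (6 * G) ^ 2 := Nat.pow_le_pow_left (by omega) 2
      _ ≤ (6 * G) ^ (2 * G) := Nat.pow_le_pow_right (by omega) (by omega)
  have hyx : 144 * x ≤ y := by
    calc 144 * x = (4 * 36) * x := by norm_num
      _ ≤ (4 * (6 * G) ^ (2 * G)) * x ^ (2 * G + 1) :=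
        Nat.mul_le_mul (Nat.mul_le_mul_left _ h6G) (Nat.le_self_pow (by omega) _)
  have hy1 : 1 ≤ y := by omega
  have key : 2 * q ≤ 3 * y ^ (2 * G) := by
    rcases h3 with h3 | h3
    · have h4 : y ≤ y ^ (2 * G) := Nat.le_self_pow (by omega) _
      omega
    · have h4 : p ≤ y := by
        refine h3.le.trans ?_
        apply Nat.mul_le_mul
        · apply Nat.mul_le_mul_left
          calc (6 * g) ^ (2 * g) ≤ (6 * G) ^ (2 * g) := Nat.pow_le_pow_left (by omega) _
            _ ≤ (6 * G) ^ (2 * G) := Nat.pow_le_pow_right (by omega) (by omega)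
        · exact Nat.pow_le_pow_right hx (by omega)
      calc 2 * q ≤ 3 * p ^ (2 * g) := h2.le
        _ ≤ 3 * y ^ (2 * g) := Nat.mul_le_mul_left _ (Nat.pow_le_pow_left h4 _)
        _ ≤ 3 * y ^ (2 * G) := Nat.mul_le_mul_left _ (Nat.pow_le_pow_right hy1 (by omega))
  set B := 2 * G * (2 * G + 1) with hB
  have hyp : y ^ (2 * G) = 4 ^ (2 * G) * (6 * G) ^ (4 * G ^ 2) * x ^ B := by
    rw [hy, mul_pow, mul_pow, ← pow_mul, ← pow_mul, hB]
    congr 2
    · congr 1; ring
    · ring
  calc 2 * q ^ (6 * G * (2 * G + 1) + 1) = (2 * q) * (q ^ 3) ^ B := by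
        rw [← pow_mul, pow_succ, hB]
        have : 6 * G * (2 * G + 1) = 3 * (2 * G * (2 * G + 1)) := by ring
        rw [this]; ring
    _ ≤ (3 * y ^ (2 * G)) * (q ^ 3) ^ B := Nat.mul_le_mul_right _ key
    _ = 3 * (4 ^ (2 * G) * (6 * G) ^ (4 * G ^ 2)) * (q ^ 3 * x) ^ B := by
        rw [hyp, mul_pow]; ring
    _ ≤ 3 * (4 ^ (2 * G) * (6 * G) ^ (4 * G ^ 2)) * (6 * N) ^ B :=
        Nat.mul_le_mul_left _ (Nat.pow_le_pow_left h1 _)
    _ = 3 * (4 * 6) ^ (2 * G) * (6 * (6 * G)) ^ (4 * G ^ 2) * N ^ B := by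
        have hB2 : B = 2 * G + 4 * G ^ 2 := by rw [hB]; ring
        rw [mul_pow 6 N, mul_pow 4 6, mul_pow 6 (6 * G)]
        have : (6 : ℕ) ^ B = 6 ^ (2 * G) * 6 ^ (4 * G ^ 2) := by rw [hB2, pow_add]
        rw [this]; ring
    _ = _ := by
        have : 6 * (6 * G) = 36 * G := by ring
        rw [this]

/-- the bound for the special prime -/
theorem special {G N q p : ℕ} (hodd : Odd N) (hperf : Nat.Perfect N) (hq : q.Prime)
    (hq1 : N.factorization q = 1) (hp : p ∈ N.primeFactors) (hpG : N.factorization p ≤ 2 * G)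
    (hd : q ∣ sg (p ^ N.factorization p)) :
    2 * q ^ (6 * G * (2 * G + 1) + 1) ≤
      3 * 24 ^ (2 * G) * (36 * G) ^ (4 * G ^ 2) * N ^ (2 * G * (2 * G + 1)) := by
  have hpp := Nat.prime_of_mem_primeFactors hp
  have hqN : q ∈ N.primeFactors := by
    rw [← Nat.support_factorization, Finsupp.mem_support_iff]
    omega
  have hqp : q ≠ p := by
    rintro rfl
    exact not_dvd_sg_pp hq hd
  have hpos : 0 < N.factorization p :=
    hpp.factorization_pos_of_dvd hperf.2.ne' (Nat.dvd_of_mem_primeFactors hp)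
  have heven : Even (N.factorization p) := by
    rw [← Nat.not_odd_iff_even]
    intro h
    exact euler hodd hperf hqN hp hqp (by rw [hq1]; exact odd_one) h
  obtain ⟨g, hg⟩ := heven
  have hg' : N.factorization p = 2 * g := by omega
  rw [hg'] at hd
  obtain ⟨x, hx, h1, h2, h3⟩ := core hodd hperf hq hq1 hpp (by omega) hg' hd
  exact numeric (by omega) (by omega) hx h1 h2 h3

/-- a component is at most the square root of `2 * N` -/
theorem comp_sq {N a : ℕ} (hperf : Nat.Perfect N) (ha : a ∈ N.primeFactors) :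
    (a ^ N.factorization a) ^ 2 ≤ 2 * N := by
  have hN0 : 0 < N := hperf.2
  have hs : sg N = 2 * N := (Nat.perfect_iff_sum_divisors_eq_two_mul hN0).1 hperf
  have hap := Nat.prime_of_mem_primeFactors ha
  set v := N.factorization a with hv
  set M := N / a ^ v with hM
  have hdec : a ^ v * M = N := Nat.ordProj_mul_ordCompl_eq_self N a
  have hMpos : 0 < M := Nat.ordCompl_pos a hN0.ne'
  have hcop : (a ^ v).Coprime M := Nat.Coprime.pow_left _ (Nat.coprime_ordCompl hap hN0.ne')
  have hpow : 0 < a ^ v := pow_pos hap.pos _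
  have h1 : sg (a ^ v) * sg M = 2 * (a ^ v * M) := by
    rw [← sg_mul hcop, hdec, hs]
  have h2 : a ^ v ∣ sg M := by
    have h3 : (a ^ v).Coprime (sg (a ^ v)) :=
      Nat.Coprime.pow_left _ ((Nat.Prime.coprime_iff_not_dvd hap).2 (not_dvd_sg_pp hap))
    apply h3.dvd_of_dvd_mul_left
    rw [h1]
    exact ⟨2 * M, by ring⟩
  have h3 : a ^ v ≤ sg M := Nat.le_of_dvd (sg_pos hMpos) h2
  have h4 : sg M ≤ 2 * M := by
    have : a ^ v * sg M ≤ a ^ v * (2 * M) := by
      calc a ^ v * sg M ≤ sg (a ^ v) * sg M := Nat.mul_le_mul_right _ (sg_ge hpow)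
        _ = _ := by rw [h1]; ring
    exact Nat.le_of_mul_le_mul_left this hpow
  calc (a ^ v) ^ 2 = a ^ v * a ^ v := sq _
    _ ≤ a ^ v * (2 * M) := Nat.mul_le_mul_left _ (h3.trans h4)
    _ = 2 * N := by rw [← hdec]; ring

/-- every prime factor divides the divisor sum of some component -/
theorem exists_comp {N q : ℕ} (hperf : Nat.Perfect N) (hq : q ∈ N.primeFactors) :
    ∃ p ∈ N.primeFactors, q ∣ sg (p ^ N.factorization p) := by
  have hN0 : 0 < N := hperf.2
  have hs : sg N = 2 * N := (Nat.perfect_iff_sum_divisors_eq_two_mul hN0).1 hperf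
  have hqp := Nat.prime_of_mem_primeFactors hq
  have h1 : sg N = ∏ p ∈ N.primeFactors, sg (p ^ N.factorization p) := by
    rw [← sg_pt N.primeFactors (fun r hr => Nat.prime_of_mem_primeFactors hr)]
    congr 1
    exact (Nat.prod_factorization_pow_eq_self hN0.ne').symm
  have h2 : q ∣ ∏ p ∈ N.primeFactors, sg (p ^ N.factorization p) := by
    rw [← h1, hs]
    exact (Nat.dvd_of_mem_primeFactors hq).mul_left _
  exact (hqp.prime.dvd_finsetProd_iff _).1 h2

/-- **The largest prime factor of an odd perfect number with bounded exponents.**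

Let `N` be an odd perfect number, `G ≥ 1`, and let `a` be a prime factor of `N` such that every
component `p ^ e` of `N` with `e` even whose divisor sum is divisible by `a` has `e ≤ 2 G` (for
instance, any prime factor `a` if all even exponents of `N` are at most `2 G`).  Then
`2 a ^ (6 G (2 G + 1) + 1) ≤ 3 · 24 ^ (2 G) · (36 G) ^ (4 G ^ 2) · N ^ (2 G (2 G + 1))`. -/
theorem result (G : ℕ) (hG : 1 ≤ G) (N : ℕ) (hodd : Odd N) (hperf : Nat.Perfect N)
    (a : ℕ) (ha : a ∈ N.primeFactors)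
    (h : ∀ p ∈ N.primeFactors, Even (N.factorization p) →
      a ∣ ∑ d ∈ (p ^ N.factorization p).divisors, d → N.factorization p ≤ 2 * G) :
    2 * a ^ (6 * G * (2 * G + 1) + 1) ≤
      3 * 24 ^ (2 * G) * (36 * G) ^ (4 * G ^ 2) * N ^ (2 * G * (2 * G + 1)) := by
  have hall := h
  have hN0 : 0 < N := hperf.2
  have hap := Nat.prime_of_mem_primeFactors ha
  have hapos : 0 < N.factorization a :=
    hap.factorization_pos_of_dvd hN0.ne' (Nat.dvd_of_mem_primeFactors ha)
  rcases Nat.lt_or_ge (N.factorization a) 2 with h | h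
  · have ha1 : N.factorization a = 1 := by omega
    obtain ⟨p, hp, hd⟩ := exists_comp hperf ha
    have hqp : a ≠ p := by
      rintro rfl
      exact not_dvd_sg_pp hap hd
    have heven : Even (N.factorization p) := by
      rw [← Nat.not_odd_iff_even]
      intro h
      exact euler hodd hperf ha hp hqp (by rw [ha1]; exact odd_one) h
    exact special hodd hperf hap ha1 hp (hall p hp heven hd) hd
  · have h1 := comp_sq hperf ha
    have h2 : a ^ 4 ≤ 2 * N := by
      calc a ^ 4 = (a ^ 2) ^ 2 := by ring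
        _ ≤ (a ^ N.factorization a) ^ 2 :=
          Nat.pow_le_pow_left (Nat.pow_le_pow_right hap.pos h) 2
        _ ≤ _ := h1
    set B := 2 * G * (2 * G + 1) with hB
    have hB2 : B = 2 * G + 4 * G ^ 2 := by rw [hB]; ring
    have h4 : 6 * G * (2 * G + 1) + 1 ≤ 4 * B := by
      have e : 6 * G * (2 * G + 1) = 3 * B := by rw [hB]; ring
      have : 1 ≤ B := by rw [hB]; exact Nat.mul_pos (by omega) (by omega)
      omega
    calc 2 * a ^ (6 * G * (2 * G + 1) + 1) ≤ 2 * a ^ (4 * B) :=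
          Nat.mul_le_mul_left _ (Nat.pow_le_pow_right hap.pos h4)
      _ = 2 * (a ^ 4) ^ B := by rw [pow_mul]
      _ ≤ 2 * (2 * N) ^ B := Nat.mul_le_mul_left _ (Nat.pow_le_pow_left h2 _)
      _ = 2 * 2 ^ (2 * G) * 2 ^ (4 * G ^ 2) * N ^ B := by
          rw [mul_pow, hB2, pow_add 2]; ring
      _ ≤ 3 * 24 ^ (2 * G) * (36 * G) ^ (4 * G ^ 2) * N ^ B := by
          apply Nat.mul_le_mul_right
          apply Nat.mul_le_mul
          · exact Nat.mul_le_mul (by norm_num) (Nat.pow_le_pow_left (by norm_num) _)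
          · exact Nat.pow_le_pow_left (by omega) _

end Pool.Agent.Results.MP_f02ea4_nt.LargestPrimeBoundedExponents
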