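import Mathlib
import Pool.Agent.Q239.OPN.Gen2Asym

/-!
# An explicit constant in Wirsing's theorem, uniformly in `α`

Wirsing (1959) proved that for every `α` the equation `σ(n) = α n` has at most
`x ^ (W / log log x)` solutions `n ≤ x`, with an unspecified absolute constant `W`. Here: every
`W > log 2` is admissible, uniformly in the real number `α`, also for the number of all multiply
perfect numbers up to `x`; and every `W > (log 2) / 2` is admissible for odd perfect numbers, for all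
odd multiply perfect numbers together, and for the odd solutions of `σ(n) = α n` with
`2 ^ (r + 1) ∤ σ(n)`, `r ≤ √(log x)`. There are also bounds valid for all `X`.

Proof. Write `n = A B` with `A` the part of `n` composed of the primes `≤ Y = (log x) ^ (1 - δ)`; there
are few `A`. Then `σ(B) / B = β = α / (σ(A) / A)`. If `β = a / b` in lowest terms with `b > 1` then
`b ∣ B` and the least prime factor of `b` divides `B`. If `β = k ≥ 2` is an integer, then the least
prime factor of `B` is at most `ω(B) + 1`. So `B` is determined by the exponents of its primes in the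
order in which they are found, and by one prime `≤ ω(B) + 1` for each integer value `k ≥ 2` of `β`
that is met; these values decrease and are at most `1 + ω(B) / Y`. There are at most `2 ^ M` lists of
exponents with sum at most `M = log x / log Y`, and only about `2 ^ (M / 2)` if all but a few exponents
are even.
-/

set_option autoImplicit false

open Finset Filter

namespace Pool.Agent.Results.MP_f02ea4_nt.WirsingUniform

/-- the sum of the positive divisors -/
def sig (n : ℕ) : ℕ := ∑ d ∈ n.divisors, d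

open Classical in
/-- the number of `n` with `1 ≤ n ≤ X` and `P n` -/
noncomputable def num (P : ℕ → Prop) (X : ℕ) : ℕ := ((Icc 1 X).filter P).card

theorem h_eq {n : ℕ} (hn : 1 ≤ n) (α : ℚ) : Q239.OPN.h n = α ↔ (sig n : ℝ) = (α : ℝ) * n := by
  have hn0 : (n : ℚ) ≠ 0 := by
    have : n ≠ 0 := by omega
    exact_mod_cast this
  unfold Q239.OPN.h sig
  rw [div_eq_iff hn0]
  constructor
  · intro h
    exact_mod_cast h
  · intro h
    exact_mod_cast h

open Classical in
theorem num_mono {P Q : ℕ → Prop} {X : ℕ} (h : ∀ n, 1 ≤ n → n ≤ X → P n → Q n) :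
    num P X ≤ num Q X := by
  unfold num
  refine card_le_card fun n hn => ?_
  rw [mem_filter, mem_Icc] at hn ⊢
  exact ⟨hn.1, h n hn.1.1 hn.1.2 hn.2⟩

open Classical in
theorem num_zero {P : ℕ → Prop} {X : ℕ} (h : ∀ n, 1 ≤ n → n ≤ X → ¬ P n) : num P X = 0 := by
  unfold num
  rw [card_eq_zero, filter_eq_empty_iff]
  intro n hn
  rw [mem_Icc] at hn
  exact h n hn.1 hn.2

theorem num_congr {P Q : ℕ → Prop} {X : ℕ} (h : ∀ n, 1 ≤ n → n ≤ X → (P n ↔ Q n)) :
    num P X = num Q X :=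
  le_antisymm (num_mono fun n h1 h2 hp => (h n h1 h2).1 hp)
    (num_mono fun n h1 h2 hp => (h n h1 h2).2 hp)

open Classical in
/-- reduction of a real `α` to a rational one -/
theorem num_real (α : ℝ) (R : ℕ → Prop) (X : ℕ) :
    ∃ β : ℚ, num (fun n => (sig n : ℝ) = α * n ∧ R n) X ≤
      num (fun n => Q239.OPN.h n = β ∧ R n) X := by
  by_cases hex : ∃ n, (1 ≤ n ∧ n ≤ X) ∧ (sig n : ℝ) = α * n
  · obtain ⟨n, hn, hα⟩ := hex
    have hn0 : (n : ℝ) ≠ 0 := by
      have : n ≠ 0 := by omega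
      exact_mod_cast this
    refine ⟨(sig n : ℚ) / n, num_mono fun m hm1 _ hm => ⟨?_, hm.2⟩⟩
    rw [h_eq hm1]
    push_cast
    rw [hα, mul_div_assoc, div_self hn0, mul_one]
    exact hm.1
  · refine ⟨0, ?_⟩
    have : num (fun n => (sig n : ℝ) = α * n ∧ R n) X = 0 := by
      exact num_zero fun n h1 h2 h3 => hex ⟨n, ⟨h1, h2⟩, h3.1⟩
    rw [this]
    exact Nat.zero_le _

theorem oddP_le {n r : ℕ} (hodd : Odd n) (h : ¬ 2 ^ (r + 1) ∣ sig n) :
    (Q239.OPN.oddP n).card ≤ r := by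
  by_contra hlt
  exact h ((pow_dvd_pow 2 (by omega)).trans (Q239.OPN.two_pow_dvd hodd))

/-- **An explicit constant in Wirsing's theorem, uniform in `α`.** -/
theorem result :
    -- odd perfect numbers, and all odd multiply perfect numbers
    (∀ ε : ℝ, 0 < ε → ∀ᶠ x : ℝ in atTop,
      (num (fun n => Odd n ∧ sig n = 2 * n) ⌊x⌋₊ : ℝ) ≤
          x ^ ((Real.log 2 / 2 + ε) / Real.log (Real.log x)) ∧
      (num (fun n => Odd n ∧ n ∣ sig n) ⌊x⌋₊ : ℝ) ≤
          x ^ ((Real.log 2 / 2 + ε) / Real.log (Real.log x))) ∧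
    -- odd solutions of `σ(n) = α n`
    (∀ ε : ℝ, 0 < ε → ∀ᶠ x : ℝ in atTop, ∀ (α : ℝ) (r : ℕ), (r : ℝ) ≤ √(Real.log x) →
      (num (fun n => (sig n : ℝ) = α * n ∧ (Odd n ∧ ¬ 2 ^ (r + 1) ∣ sig n)) ⌊x⌋₊ : ℝ) ≤
          x ^ ((Real.log 2 / 2 + ε) / Real.log (Real.log x))) ∧
    -- all solutions of `σ(n) = α n`, and all multiply perfect numbers
    (∀ ε : ℝ, 0 < ε → ∀ᶠ x : ℝ in atTop,
      (∀ α : ℝ, (num (fun n => (sig n : ℝ) = α * n) ⌊x⌋₊ : ℝ) ≤
          x ^ ((Real.log 2 + ε) / Real.log (Real.log x))) ∧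
      (num (fun n => n ∣ sig n) ⌊x⌋₊ : ℝ) ≤
          x ^ ((Real.log 2 + ε) / Real.log (Real.log x))) ∧
    -- bounds for all `X`
    (∀ X Y m : ℕ, 1 ≤ Y → m = (Nat.log (Y + 1) X + 1) / 2 →
      num (fun n => Odd n ∧ sig n = 2 * n) X ≤ (m + 1) * 2 ^ m * ((Nat.log 2 X + 1) ^ (Y + 1) *
        ((2 * Nat.log 2 X + 2) * (Nat.log 2 X + 1)))) ∧
    (∀ (α : ℝ) (X Y M : ℕ), 1 ≤ Y → M = Nat.log (Y + 1) X →
      num (fun n => (sig n : ℝ) = α * n) X ≤
        2 ^ M * (M + 1) ^ (M / Y + 1) * (Nat.log 2 X + 1) ^ (Y + 1)) := by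
  classical
  refine ⟨fun ε hε => ?_, fun ε hε => ?_, fun ε hε => ?_, ?_, ?_⟩
  · filter_upwards [Q239.OPN.main_oddmult hε] with x hx
    have h2 : (num (fun n => Odd n ∧ n ∣ sig n) ⌊x⌋₊ : ℝ) ≤
        x ^ ((Real.log 2 / 2 + ε) / Real.log (Real.log x)) := by
      refine le_trans (le_of_eq ?_) hx
      unfold num sig
      congr!
    refine ⟨le_trans ?_ h2, h2⟩
    have := num_mono (X := ⌊x⌋₊) (P := fun n => Odd n ∧ sig n = 2 * n)
      (Q := fun n => Odd n ∧ n ∣ sig n) fun n _ _ h => ⟨h.1, h.2 ▸ Dvd.intro_left 2 rfl⟩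
    exact_mod_cast this
  · filter_upwards [Q239.OPN.main_gen2 hε] with x hx α r hr
    obtain ⟨β, hβ⟩ := num_real α (fun n => Odd n ∧ ¬ 2 ^ (r + 1) ∣ sig n) ⌊x⌋₊
    have h1 := hx β r hr
    refine le_trans ?_ h1
    have h2 : num (fun n => Q239.OPN.h n = β ∧ (Odd n ∧ ¬ 2 ^ (r + 1) ∣ sig n)) ⌊x⌋₊ ≤
        num (fun n => Q239.OPN.h n = β ∧ (Q239.OPN.oddP n).card ≤ r) ⌊x⌋₊ :=
      num_mono fun n _ _ h => ⟨h.1, oddP_le h.2.1 h.2.2⟩
    have h3 := hβ.trans h2
    have h4 : num (fun n => Q239.OPN.h n = β ∧ (Q239.OPN.oddP n).card ≤ r) ⌊x⌋₊ =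
        ((Icc 1 ⌊x⌋₊).filter fun n => Q239.OPN.h n = β ∧ (Q239.OPN.oddP n).card ≤ r).card := by
      unfold num
      congr!
    rw [h4] at h3
    exact_mod_cast h3
  · filter_upwards [Q239.OPN.main_gen hε, Q239.OPN.main_mult hε] with x hx hx2
    refine ⟨fun α => ?_, ?_⟩
    · obtain ⟨β, hβ⟩ := num_real α (fun _ => True) ⌊x⌋₊
      have h1 := hx β
      refine le_trans ?_ h1
      have h3 : num (fun n => (sig n : ℝ) = α * n) ⌊x⌋₊ ≤
          ((Icc 1 ⌊x⌋₊).filter fun n => Q239.OPN.h n = β).card := by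
        simp only [and_true] at hβ
        refine hβ.trans (le_of_eq ?_)
        unfold num
        congr!
      exact_mod_cast h3
    · refine le_trans (le_of_eq ?_) hx2
      unfold num sig
      congr!
  · rintro X Y m hY rfl
    have h1 : num (fun n => Odd n ∧ sig n = 2 * n) X = num Q239.OPN.Opn X := by
      refine num_congr fun n hn _ => ?_
      unfold Q239.OPN.Opn sig
      exact ⟨fun h => ⟨h.1, by omega, h.2⟩, fun h => ⟨h.1, h.2.2⟩⟩
    rw [h1]
    refine le_trans (le_of_eq ?_) (Q239.OPN.card_le X Y hY)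
    unfold num
    congr!
  · rintro α X Y M hY rfl
    obtain ⟨β, hβ⟩ := num_real α (fun _ => True) X
    simp only [and_true] at hβ
    refine hβ.trans (le_trans (le_of_eq ?_) (Q239.OPN.card_gen β X Y hY))
    unfold num
    congr!

end Pool.Agent.Results.MP_f02ea4_nt.WirsingUniform
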